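import Pool.Agent.Helper36x.PN.MainO

/-!
# The Sato-Tate law for the middle cohomology of almost all smooth hypersurfaces of even dimension and large degree

Let `X_t ⊂ P ^ (2 l + 1)`, `l ≥ 1`, be the hypersurface of degree `d` and dimension `2 l` whose equation has the integer coefficients `t`.
Its cohomology in the even degrees `i ≠ 2 l` is spanned by a power of the hyperplane class, and the group
`V = H ^ (2 l) (X_t, Q_ℓ (l))` is the sum of the trivial representation (spanned by the `l`-th power of the hyperplane class) and the primitive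
part, an orthogonal representation of dimension `b = ((d - 1) ^ (2 l + 2) + (d - 1)) / d`; the Sato-Tate group is the orthogonal group `O(b)`
for almost all `t`. Let `a_i(p)` be the coefficients of the characteristic polynomials `det (1 - T Frob_p)` on the primitive part; they determine
the classes `x_p` up to conjugation. We compare the numbers `a_i(p)`, `p` in an interval `(Y, Y']` (or in the part of it in any given set of primes), with
the coefficients of the polynomials `det (1 - T U)`, `U ∈ O(b)`: the joint distribution function of `a_1(p), …, a_r(p)` agrees with that for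
the Haar measure of `O(b)` up to `ε` if `d ≥ d₀(l, r, ε)`, for almost all `t`, in all intervals with `Y' ≥ X₀` and at least `Y' ^ (1 / 2 + ε)`
good primes of the given set; the exceptional hypersurfaces are at most `C d ^ (l + 1 / 2) X₀ ^ (-ε / 2)` of all, and `κ, C` are
independent of the degree `d`.

Proof. The values of a random form of degree `d` at closed points of `P ^ (2 l + 1)` of total degree at most `d + 1` are independent and
uniformly distributed. This gives the joint moments of the numbers of the points over the fields with `p, p ^ 2, …, p ^ r` elements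
over all forms modulo `p`, up to `O (p ^ (-1 / 2))`, uniformly in `d`: those of independent normal variables (for the traces of
the powers: with the means `1` for the even powers and `0` for the odd ones, and the variances `j`). The Chinese remainder theorem gives
the second moments of the sums over the primes, the inequality of Rademacher and Menshov makes them uniform in the intervals. The moments of the
traces of the powers of weight less than `b` for the Haar measure of `O(b)` are exactly those of the same normal variables: this is proved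
by the loop equations (integration by parts on the group). The moment problem for the normal law is determinate, and Newton's
identities express the coefficients in terms of the traces. (Several steps use the work of helper35 for hyperelliptic curves.)
-/

set_option autoImplicit false

namespace Pool.Agent.Results.MP_32ceeb_nt.EvenHypersurfaces

open Finset MvPolynomial MeasureTheory
open Pool.Agent.Y722.HS (Mon form IsSmooth)
open scoped LinearAlgebra.Projectivization

/-- The number of the points over the field with `p ^ k` elements (`p` a prime number) of the hypersurface `X_t : F_t = 0` of dimension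
`2 l`, where `F_t` is the form of degree `d` in `2 l + 2` variables with the coefficients `t`. -/
noncomputable def points (p k : ℕ) {l d : ℕ} (t : Mon (2 * l + 1) d → ℤ) : ℕ :=
  open scoped Classical in
  if h : p.Prime then
    haveI : Fact p.Prime := ⟨h⟩
    Nat.card {P : ℙ (GaloisField p k) (Fin (2 * l + 2) → GaloisField p k) // aeval P.rep (form t) = 0}
  else 0

/-- `p` is a prime number and `X_t` is smooth over the algebraic closure of the field with `p` elements. -/
def Good {l d : ℕ} (t : Mon (2 * l + 1) d → ℤ) (p : ℕ) : Prop :=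
  p.Prime ∧ ∀ _ : Fact p.Prime, IsSmooth (map (algebraMap (ZMod p) (AlgebraicClosure (ZMod p))) (map (Int.castRingHom (ZMod p)) (form t)))

/-- The trace `τ_k(p)` of the `k`-th power of the Frobenius on the primitive part of `H ^ (2 l) (X_t, Q_ℓ (l))`, by the formula of Grothendieck
and Lefschetz: `τ_k(p) = (#X_t(F_(p ^ k)) - ∑_(i ≤ 2 l) p ^ (k i)) / p ^ (k l)`. -/
noncomputable def τ {l d : ℕ} (t : Mon (2 * l + 1) d → ℤ) (p k : ℕ) : ℝ :=
  (points p k t - ∑ i ∈ range (2 * l + 1), ((p : ℝ) ^ k) ^ i) / ((p : ℝ) ^ k) ^ l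

/-- The coefficients of the polynomial `∏ (1 - α_j T)` in terms of the power sums `σ_k = ∑ α_j ^ k`, by Newton's identities
`(i + 1) a_(i+1) = - ∑_(j ≤ i) σ_(j+1) a_(i-j)`, `a_0 = 1`. -/
noncomputable def newton (σ : ℕ → ℝ) : ℕ → ℝ
  | 0 => 1
  | i + 1 => -(∑ j : Fin (i + 1), σ (j + 1) * newton σ (i - j)) / (i + 1)

/-- The coefficient `a_i(p)` of `T ^ i` in the polynomial `det (1 - T Frob_p)` on the primitive part of `H ^ (2 l) (X_t, Q_ℓ (l))`. -/
noncomputable def a {l d : ℕ} (t : Mon (2 * l + 1) d → ℤ) (i p : ℕ) : ℝ := newton (τ t p) i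

open Classical in
/-- The good primes `p` in the set `S` with `Y < p ≤ Y'`. -/
noncomputable def primesIn {l d : ℕ} (t : Mon (2 * l + 1) d → ℤ) (S : Set ℕ) (Y Y' : ℕ) : Finset ℕ := (Ioc Y Y').filter fun p => p ∈ S ∧ Good t p

/-- The integer vectors `t` with `N i ≤ t i < N i + L i`. -/
noncomputable def box {l d : ℕ} (N : Mon (2 * l + 1) d → ℤ) (L : Mon (2 * l + 1) d → ℕ) : Finset (Mon (2 * l + 1) d → ℤ) :=
  Fintype.piFinset fun i => Ico (N i) (N i + L i)

/-- For all sets `S` of primes, all boxes with sides at least `T (d + 2) ^ (2 l + 1)` and all `X₀ ≥ 1` the vectors `t` of the box have the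
property `P t S Y Y'` for all `Y ≤ Y'` with `X₀ ≤ Y' ≤ T ^ κ`, with at most `C d ^ (l + 1 / 2) X₀ ^ (-ε / 2)` times the volume of the box exceptions. -/
def AlmostAll (l d : ℕ) (ε κ C : ℝ) (P : (Mon (2 * l + 1) d → ℤ) → Set ℕ → ℕ → ℕ → Prop) : Prop :=
  ∀ (S : Set ℕ) (N : Mon (2 * l + 1) d → ℤ) (L : Mon (2 * l + 1) d → ℕ) (T : ℝ), 0 < T → (∀ i, T * ((d : ℝ) + 2) ^ (2 * l + 1) ≤ L i) →
    ∀ X₀ : ℕ, 1 ≤ X₀ →
      ∃ E : Finset (Mon (2 * l + 1) d → ℤ), E ⊆ box N L ∧ (E.card : ℝ) ≤ C * (d : ℝ) ^ ((l : ℝ) + 1 / 2) * (X₀ : ℝ) ^ (-(ε / 2)) * ∏ i, (L i : ℝ) ∧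
        ∀ t ∈ box N L, t ∉ E → ∀ Y Y' : ℕ, Y ≤ Y' → X₀ ≤ Y' → (Y' : ℝ) ≤ T ^ κ → P t S Y Y'

/-- The dimension of the primitive cohomology. -/
def b (l d : ℕ) : ℕ := ((d - 1) ^ (2 * l + 2) + (d - 1)) / d

/-- The orthogonal group. -/
def O (b : ℕ) : Set (Matrix (Fin b) (Fin b) ℝ) := {U | U.transpose * U = 1}

/-- The Haar probability measure on `O(b)`, as a measure on the Borel sets of the space of the matrices. -/
structure IsHaar (b : ℕ) (μ : @Measure (Matrix (Fin b) (Fin b) ℝ) (borel _)) : Prop where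
  prob : IsProbabilityMeasure μ
  supp : ∀ᵐ U ∂μ, U ∈ O b
  inv : ∀ V ∈ O b, @Measure.map _ _ (borel _) (borel _) (fun U => V * U) μ = μ

/-- The coefficient `Φ_i(U)` of `T ^ i` in `det (1 - T U)`. -/
noncomputable def Φ {b : ℕ} (i : ℕ) (U : Matrix (Fin b) (Fin b) ℝ) : ℝ := U.charpolyRev.coeff i

lemma newton_eq (σ : ℕ → ℝ) (i : ℕ) : newton σ i = H35GS.coef σ i := by
  induction i using Nat.strong_induction_on with
  | _ i ih =>
    rcases i with _ | i
    · rw [H35GS.coef_zero, newton]
    · rw [H35GS.coef_succ, newton]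
      congr 2
      exact sum_congr rfl fun j _ => by rw [ih (i - j) (by omega)]

lemma haar_of {b : ℕ} {μ : @Measure (Matrix (Fin b) (Fin b) ℝ) (borel _)} (h : IsHaar b μ) : H36PN.OO.Haar μ where
  prob := h.prob
  supp := by
    filter_upwards [h.supp] with U hU
    exact ⟨hU⟩
  inv := fun V hV => h.inv V hV.un

lemma aeval_form {p k : ℕ} [Fact p.Prime] {l d : ℕ} (t : Mon (2 * l + 1) d → ℤ) (x : Fin (2 * l + 2) → GaloisField p k) :
    aeval x (form t) = ∑ ν, algebraMap (ZMod p) (GaloisField p k) (t ν : ZMod p) * Pool.Agent.Y722.HS.mev x ν := by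
  unfold Pool.Agent.Y722.HS.form Pool.Agent.Y722.HS.mev
  simp [map_sum, map_prod]

lemma τ_eq {l d : ℕ} (t : Mon (2 * l + 1) d → ℤ) (p j : ℕ) (hp : p.Prime) : τ t p (j + 1) = -H36PN.sv (2 * l) d j p fun ν => (t ν : ZMod p) := by
  classical
  have : Fact p.Prime := ⟨hp⟩
  have h1 : (points p (j + 1) t : ℝ) = ∑ v : H36PN.NV (GaloisField p (j + 1)) (2 * l + 1),
      H36PN.iz (∑ ν, algebraMap (ZMod p) (GaloisField p (j + 1)) (t ν : ZMod p) * Pool.Agent.Y722.HS.mev v.1 ν) := by
    unfold points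
    rw [dif_pos hp]
    have h2 : Nat.card {P : ℙ (GaloisField p (j + 1)) (Fin (2 * l + 2) → GaloisField p (j + 1)) // aeval P.rep (form t) = 0} =
        Nat.card {P : ℙ (GaloisField p (j + 1)) (Fin (2 * l + 2) → GaloisField p (j + 1)) //
          ∑ ν, algebraMap (ZMod p) (GaloisField p (j + 1)) (t ν : ZMod p) * Pool.Agent.Y722.HS.mev P.rep ν = 0} :=
      Nat.card_congr (Equiv.subtypeEquivRight fun P => by rw [aeval_form])
    rw [h2]
    have h3 := H36PN.card_zero (n := 2 * l + 1) (F := GaloisField p (j + 1)) fun ν : Mon (2 * l + 1) d => algebraMap (ZMod p) (GaloisField p (j + 1)) (t ν : ZMod p)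
    rw [h3]
    have h4 : Nat.card {v : {v : Fin (2 * l + 1 + 1) → GaloisField p (j + 1) // H36PN.Nrm v} //
        ∑ ν, algebraMap (ZMod p) (GaloisField p (j + 1)) (t ν : ZMod p) * Pool.Agent.Y722.HS.mev v.1 ν = 0} =
        Nat.card {v : H36PN.NV (GaloisField p (j + 1)) (2 * l + 1) //
          ∑ ν, algebraMap (ZMod p) (GaloisField p (j + 1)) (t ν : ZMod p) * Pool.Agent.Y722.HS.mev v.1 ν = 0} := rfl
    rw [h4, Nat.card_eq_fintype_card, Fintype.card_subtype, ← sum_boole]
    refine sum_congr rfl fun v _ => ?_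
    unfold H36PN.iz
    split_ifs <;> rfl
  have h5 : Real.sqrt p ^ (2 * l * (j + 1)) = ((p : ℝ) ^ (j + 1)) ^ l := by
    rw [show 2 * l * (j + 1) = 2 * ((j + 1) * l) by ring, pow_mul, Real.sq_sqrt (Nat.cast_nonneg p), pow_mul]
  rw [H36PN.sv_eq, h5]
  unfold τ
  rw [h1, neg_div, neg_neg]

lemma map_form {l d : ℕ} (t : Mon (2 * l + 1) d → ℤ) (p : ℕ) : map (Int.castRingHom (ZMod p)) (form t) = form fun ν => (t ν : ZMod p) := by
  unfold Pool.Agent.Y722.HS.form
  simp [map_sum, map_prod]

lemma primesIn_eq {l d : ℕ} (t : Mon (2 * l + 1) d → ℤ) (S : Set ℕ) (Y Y' : ℕ) : primesIn t S Y Y' = H36PN.GP (2 * l) d S Y Y' t := by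
  classical
  ext p
  have h1 : p ∈ primesIn t S Y Y' ↔ p ∈ Ioc Y Y' ∧ p ∈ S ∧ Good t p := mem_filter
  have h2 : p ∈ H36PN.GP (2 * l) d S Y Y' t ↔ p ∈ H35GS.IV Y Y' ∧ p ∈ S ∧ H36PN.Sm p fun ν => (t ν : ZMod p) := mem_filter
  have h3 : p ∈ H35GS.IV Y Y' ↔ p ∈ Ioc Y Y' ∧ p.Prime := mem_filter
  have h4 : Good t p ↔ p.Prime ∧ H36PN.Sm p fun ν => (t ν : ZMod p) := by
    unfold Good H36PN.Sm
    refine and_congr Iff.rfl (forall_congr' fun _ => ?_)
    have h5 : map (algebraMap (ZMod p) (AlgebraicClosure (ZMod p))) (map (Int.castRingHom (ZMod p)) (form t)) =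
        map (algebraMap (ZMod p) (AlgebraicClosure (ZMod p))) (form fun ν => (t ν : ZMod p)) := congrArg _ (map_form t p)
    exact iff_of_eq (congrArg IsSmooth h5)
  rw [h1, h2, h3, h4]
  tauto

lemma prime_of {l d : ℕ} {t : Mon (2 * l + 1) d → ℤ} {S : Set ℕ} {Y Y' p : ℕ} (h : p ∈ primesIn t S Y Y') : p.Prime := by
  classical
  have h1 : p ∈ primesIn t S Y Y' ↔ p ∈ Ioc Y Y' ∧ p ∈ S ∧ Good t p := mem_filter
  exact (h1.1 h).2.2.1

lemma le_b {l d : ℕ} (hl : 1 ≤ l) (hd : 3 ≤ d) : d ≤ b l d := by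
  unfold b
  rw [Nat.le_div_iff_mul_le (by omega)]
  obtain ⟨e, rfl⟩ : ∃ e, d = e + 3 := ⟨d - 3, by omega⟩
  have h1 : e + 3 - 1 = e + 2 := by omega
  rw [h1]
  have h2 : (e + 2) ^ 4 ≤ (e + 2) ^ (2 * l + 2) := Nat.pow_le_pow_right (by omega) (by omega)
  have h3 : (e + 3) * (e + 3) ≤ (e + 2) ^ 4 := by
    have : (e + 2) ^ 4 = (e + 3) * (e + 3) + (e ^ 4 + 8 * e ^ 3 + 23 * e ^ 2 + 26 * e + 7) := by ring
    omega
  omega

/-- Let `l, r ≥ 1`. For all `d ≥ d₀`, for almost all `t` and all Haar measures `μ` on `O(b)`, `b = ((d - 1) ^ (2 l + 2) + (d - 1)) / d`: if there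
are `n ≥ Y' ^ (1 / 2 + ε)` good primes of `S` in `(Y, Y']`, then for all real `x_1, …, x_r` the proportion of those of them with
`a_i(p) ≤ x_i` for all `i ≤ r` differs from the Haar measure of the set of the `U ∈ O(b)` with `Φ_i(U) ≤ x_i` for all `i ≤ r` by at
most `ε`. The numbers `d₀, κ, C` depend only on `l`, `r` and `ε`. -/
theorem result (l : ℕ) (hl : 1 ≤ l) (r : ℕ) (ε : ℝ) (hε : 0 < ε) (hε1 : ε ≤ 1) :
    ∃ (d₀ : ℕ) (κ C : ℝ), 0 < κ ∧ ∀ d : ℕ, d₀ ≤ d →
      AlmostAll l d ε κ C fun t S Y Y' => (Y' : ℝ) ^ (1 / 2 + ε) ≤ (primesIn t S Y Y').card →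
        ∀ μ, IsHaar (b l d) μ → ∀ x : Fin r → ℝ,
          |({p ∈ primesIn t S Y Y' | ∀ i : Fin r, a t (i + 1) p ≤ x i}.card : ℝ) / (primesIn t S Y Y').card -
            (μ {U | ∀ i : Fin r, Φ (i + 1) U ≤ x i}).toReal| ≤ ε := by
  classical
  obtain ⟨d₀, κ, C, hκ, h⟩ := H36PN.mainO (2 * l) (by omega) r ε hε hε1
  refine ⟨max d₀ 3, κ, C, hκ, fun d hd S N L T hT hL X₀ hX₀ => ?_⟩
  have hd3 : 3 ≤ d := (le_max_right _ _).trans hd
  obtain ⟨E, hE1, hE2, hE3⟩ := h d (b l d) ((le_max_left _ _).trans hd) (le_b hl hd3) S N L T hT (by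
    intro i
    refine le_trans (mul_le_mul_of_nonneg_left ?_ hT.le) (hL i)
    have h1 : Fintype.card (Mon (2 * l + 1) d) + 1 ≤ (d + 2) ^ (2 * l + 1) := by
      have h2 := H36PN.card_Mon (2 * l + 1) d
      have h3 : (d + 1) ^ (2 * l + 1) < (d + 2) ^ (2 * l + 1) := Nat.pow_lt_pow_left (by omega) (by omega)
      omega
    exact_mod_cast h1) X₀ hX₀
  refine ⟨E, hE1, ?_, fun t ht htE Y Y' hYY hY hYT hcard μ hμ x => ?_⟩
  · have h1 : Real.sqrt d ^ (2 * l + 1) = (d : ℝ) ^ ((l : ℝ) + 1 / 2) := by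
      rw [Real.sqrt_eq_rpow, ← Real.rpow_natCast, ← Real.rpow_mul (Nat.cast_nonneg d)]
      congr 1
      push_cast
      ring
    rw [h1] at hE2
    exact hE2
  rw [primesIn_eq] at hcard
  have h1 := hE3 t ht htE Y Y' hYY hY hYT hcard μ (haar_of hμ) x
  rw [← primesIn_eq] at h1
  have h2 : ({p ∈ primesIn t S Y Y' | ∀ i : Fin r, a t (i + 1) p ≤ x i} : Finset ℕ) =
      (primesIn t S Y Y').filter fun p => ∀ i : Fin r, H35GS.coef (fun m => -H36PN.sv (2 * l) d (m - 1) p fun i => (t i : ZMod p)) ((i : ℕ) + 1) ≤ x i := by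
    refine filter_congr fun p hp => forall_congr' fun i => ?_
    unfold a
    rw [newton_eq, H35GS.coef_congr r (fun m hm => ?_) _ (show (i : ℕ) + 1 ≤ r by omega)]
    rw [τ_eq t p m (prime_of hp), Nat.add_sub_cancel]
  rw [h2]
  exact h1

end Pool.Agent.Results.MP_32ceeb_nt.EvenHypersurfaces
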