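import Pool.Agent.Helper36x.PN.IsoP

/-!
# The joint moments of the Frobenius coefficients for almost all smooth hypersurfaces of even dimension and any degree

Let `X_t ⊂ P ^ (2 l + 1)`, `l ≥ 1`, be the hypersurface of degree `d` and dimension `2 l` whose equation has the integer coefficients `t`.
The group `V = H ^ (2 l) (X_t, Q_ℓ (l))` is the sum of the trivial representation (spanned by the `l`-th power of the hyperplane class) and
the primitive part, an orthogonal representation of dimension `b = ((d - 1) ^ (2 l + 2) + (d - 1)) / d`. Let `a_i(p)` be the coefficients of the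
characteristic polynomials `det (1 - T Frob_p)` on the primitive part. For almost all `t` the joint moments of `a_1(p), a_2(p), …` of weight
(`a_i` having the weight `i`) at most `(d + 1) / 2` over the good primes `p` in all intervals `(Y, Y']` (or in the part of them in any given
set of primes) are the moments for the Haar measure of `O(b)`, with square root cancellation up to the factor `Y' ^ (ε / 2)` and a factor
depending polynomially on the degree `d`. The numbers `κ, C` are independent of `d`.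

Proof. The values of a random form of degree `d` at closed points of `P ^ (2 l + 1)` of total degree at most `d + 1` are independent and
uniformly distributed. This gives the joint moments of the numbers of the points over the fields with `p, p ^ 2, …, p ^ r` elements
over all forms modulo `p`, up to `O (p ^ (-1 / 2))`, uniformly in `d`: those of independent normal variables (for the traces of
the powers: with the means `1` for the even powers and `0` for the odd ones, and the variances `j`). The Chinese remainder theorem gives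
the second moments of the sums over the primes, the inequality of Rademacher and Menshov makes them uniform in the intervals. The moments of the
traces of the powers of weight less than `b` for the Haar measure of `O(b)` are exactly those of the same normal variables: this is proved
by the loop equations (integration by parts on the group). Newton's identities express the coefficients in terms of the traces.
(Several steps use the work of helper35 for hyperelliptic curves.)
-/

set_option autoImplicit false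

namespace Pool.Agent.Results.MP_32ceeb_nt.MomentsOfHypersurfaces

open Finset MvPolynomial MeasureTheory
open Pool.Agent.Y722.HS (Mon form IsSmooth)
open scoped LinearAlgebra.Projectivization

/-- The number of the points over the field with `p ^ k` elements (`p` a prime number) of the hypersurface `X_t : F_t = 0` of dimension
`2 l`, where `F_t` is the form of degree `d` in `2 l + 2` variables with the coefficients `t`. -/
noncomputable def points (p k : ℕ) {l d : ℕ} (t : Mon (2 * l + 1) d → ℤ) : ℕ :=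
  open scoped Classical in
  if h : p.Prime then
    haveI : Fact p.Prime := ⟨h⟩
    Nat.card {P : ℙ (GaloisField p k) (Fin (2 * l + 2) → GaloisField p k) // aeval P.rep (form t) = 0}
  else 0

/-- `p` is a prime number and `X_t` is smooth over the algebraic closure of the field with `p` elements. -/
def Good {l d : ℕ} (t : Mon (2 * l + 1) d → ℤ) (p : ℕ) : Prop :=
  p.Prime ∧ ∀ _ : Fact p.Prime, IsSmooth (map (algebraMap (ZMod p) (AlgebraicClosure (ZMod p))) (map (Int.castRingHom (ZMod p)) (form t)))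

/-- The trace `τ_k(p)` of the `k`-th power of the Frobenius on the primitive part of `H ^ (2 l) (X_t, Q_ℓ (l))`, by the formula of Grothendieck
and Lefschetz: `τ_k(p) = (#X_t(F_(p ^ k)) - ∑_(i ≤ 2 l) p ^ (k i)) / p ^ (k l)`. -/
noncomputable def τ {l d : ℕ} (t : Mon (2 * l + 1) d → ℤ) (p k : ℕ) : ℝ :=
  (points p k t - ∑ i ∈ range (2 * l + 1), ((p : ℝ) ^ k) ^ i) / ((p : ℝ) ^ k) ^ l

/-- The coefficients of the polynomial `∏ (1 - α_j T)` in terms of the power sums `σ_k = ∑ α_j ^ k`, by Newton's identities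
`(i + 1) a_(i+1) = - ∑_(j ≤ i) σ_(j+1) a_(i-j)`, `a_0 = 1`. -/
noncomputable def newton (σ : ℕ → ℝ) : ℕ → ℝ
  | 0 => 1
  | i + 1 => -(∑ j : Fin (i + 1), σ (j + 1) * newton σ (i - j)) / (i + 1)

/-- The coefficient `a_i(p)` of `T ^ i` in the polynomial `det (1 - T Frob_p)` on the primitive part of `H ^ (2 l) (X_t, Q_ℓ (l))`. -/
noncomputable def a {l d : ℕ} (t : Mon (2 * l + 1) d → ℤ) (i p : ℕ) : ℝ := newton (τ t p) i

open Classical in
/-- The good primes `p` in the set `S` with `Y < p ≤ Y'`. -/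
noncomputable def primesIn {l d : ℕ} (t : Mon (2 * l + 1) d → ℤ) (S : Set ℕ) (Y Y' : ℕ) : Finset ℕ := (Ioc Y Y').filter fun p => p ∈ S ∧ Good t p

/-- The integer vectors `t` with `N i ≤ t i < N i + L i`. -/
noncomputable def box {l d : ℕ} (N : Mon (2 * l + 1) d → ℤ) (L : Mon (2 * l + 1) d → ℕ) : Finset (Mon (2 * l + 1) d → ℤ) :=
  Fintype.piFinset fun i => Ico (N i) (N i + L i)

/-- For all sets `S` of primes, all boxes with sides at least `T (d + 2) ^ (2 l + 1)` and all `X₀ ≥ 1` the vectors `t` of the box have the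
property `P t S Y Y'` for all `Y ≤ Y'` with `X₀ ≤ Y' ≤ T ^ κ`, with at most `C X₀ ^ (-ε / 2)` times the volume of the box exceptions. -/
def AlmostAll (l d : ℕ) (ε κ C : ℝ) (P : (Mon (2 * l + 1) d → ℤ) → Set ℕ → ℕ → ℕ → Prop) : Prop :=
  ∀ (S : Set ℕ) (N : Mon (2 * l + 1) d → ℤ) (L : Mon (2 * l + 1) d → ℕ) (T : ℝ), 0 < T → (∀ i, T * ((d : ℝ) + 2) ^ (2 * l + 1) ≤ L i) →
    ∀ X₀ : ℕ, 1 ≤ X₀ →
      ∃ E : Finset (Mon (2 * l + 1) d → ℤ), E ⊆ box N L ∧ (E.card : ℝ) ≤ C * (X₀ : ℝ) ^ (-(ε / 2)) * ∏ i, (L i : ℝ) ∧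
        ∀ t ∈ box N L, t ∉ E → ∀ Y Y' : ℕ, Y ≤ Y' → X₀ ≤ Y' → (Y' : ℝ) ≤ T ^ κ → P t S Y Y'

/-- The dimension of the primitive cohomology. -/
def b (l d : ℕ) : ℕ := ((d - 1) ^ (2 * l + 2) + (d - 1)) / d

/-- The orthogonal group. -/
def O (b : ℕ) : Set (Matrix (Fin b) (Fin b) ℝ) := {U | U.transpose * U = 1}

/-- The Haar probability measure on `O(b)`, as a measure on the Borel sets of the space of the matrices. -/
structure IsHaar (b : ℕ) (μ : @Measure (Matrix (Fin b) (Fin b) ℝ) (borel _)) : Prop where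
  prob : IsProbabilityMeasure μ
  supp : ∀ᵐ U ∂μ, U ∈ O b
  inv : ∀ V ∈ O b, @Measure.map _ _ (borel _) (borel _) (fun U => V * U) μ = μ

/-- The coefficient `Φ_i(U)` of `T ^ i` in `det (1 - T U)`. -/
noncomputable def Φ {b : ℕ} (i : ℕ) (U : Matrix (Fin b) (Fin b) ℝ) : ℝ := U.charpolyRev.coeff i

lemma newton_eq (σ : ℕ → ℝ) (i : ℕ) : newton σ i = H35GS.coef σ i := by
  induction i using Nat.strong_induction_on with
  | _ i ih =>
    rcases i with _ | i
    · rw [H35GS.coef_zero, newton]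
    · rw [H35GS.coef_succ, newton]
      congr 2
      exact sum_congr rfl fun j _ => by rw [ih (i - j) (by omega)]

lemma haar_of {b : ℕ} {μ : @Measure (Matrix (Fin b) (Fin b) ℝ) (borel _)} (h : IsHaar b μ) : H36PN.OO.Haar μ where
  prob := h.prob
  supp := by
    filter_upwards [h.supp] with U hU
    exact ⟨hU⟩
  inv := fun V hV => h.inv V hV.un

lemma aeval_form {p k : ℕ} [Fact p.Prime] {l d : ℕ} (t : Mon (2 * l + 1) d → ℤ) (x : Fin (2 * l + 2) → GaloisField p k) :
    aeval x (form t) = ∑ ν, algebraMap (ZMod p) (GaloisField p k) (t ν : ZMod p) * Pool.Agent.Y722.HS.mev x ν := by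
  unfold Pool.Agent.Y722.HS.form Pool.Agent.Y722.HS.mev
  simp [map_sum, map_prod]

lemma τ_eq {l d : ℕ} (t : Mon (2 * l + 1) d → ℤ) (p j : ℕ) (hp : p.Prime) : τ t p (j + 1) = -H36PN.sv (2 * l) d j p fun ν => (t ν : ZMod p) := by
  classical
  have : Fact p.Prime := ⟨hp⟩
  have h1 : (points p (j + 1) t : ℝ) = ∑ v : H36PN.NV (GaloisField p (j + 1)) (2 * l + 1),
      H36PN.iz (∑ ν, algebraMap (ZMod p) (GaloisField p (j + 1)) (t ν : ZMod p) * Pool.Agent.Y722.HS.mev v.1 ν) := by
    unfold points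
    rw [dif_pos hp]
    have h2 : Nat.card {P : ℙ (GaloisField p (j + 1)) (Fin (2 * l + 2) → GaloisField p (j + 1)) // aeval P.rep (form t) = 0} =
        Nat.card {P : ℙ (GaloisField p (j + 1)) (Fin (2 * l + 2) → GaloisField p (j + 1)) //
          ∑ ν, algebraMap (ZMod p) (GaloisField p (j + 1)) (t ν : ZMod p) * Pool.Agent.Y722.HS.mev P.rep ν = 0} :=
      Nat.card_congr (Equiv.subtypeEquivRight fun P => by rw [aeval_form])
    rw [h2]
    have h3 := H36PN.card_zero (n := 2 * l + 1) (F := GaloisField p (j + 1)) fun ν : Mon (2 * l + 1) d => algebraMap (ZMod p) (GaloisField p (j + 1)) (t ν : ZMod p)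
    rw [h3]
    have h4 : Nat.card {v : {v : Fin (2 * l + 1 + 1) → GaloisField p (j + 1) // H36PN.Nrm v} //
        ∑ ν, algebraMap (ZMod p) (GaloisField p (j + 1)) (t ν : ZMod p) * Pool.Agent.Y722.HS.mev v.1 ν = 0} =
        Nat.card {v : H36PN.NV (GaloisField p (j + 1)) (2 * l + 1) //
          ∑ ν, algebraMap (ZMod p) (GaloisField p (j + 1)) (t ν : ZMod p) * Pool.Agent.Y722.HS.mev v.1 ν = 0} := rfl
    rw [h4, Nat.card_eq_fintype_card, Fintype.card_subtype, ← sum_boole]
    refine sum_congr rfl fun v _ => ?_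
    unfold H36PN.iz
    split_ifs <;> rfl
  have h5 : Real.sqrt p ^ (2 * l * (j + 1)) = ((p : ℝ) ^ (j + 1)) ^ l := by
    rw [show 2 * l * (j + 1) = 2 * ((j + 1) * l) by ring, pow_mul, Real.sq_sqrt (Nat.cast_nonneg p), pow_mul]
  rw [H36PN.sv_eq, h5]
  unfold τ
  rw [h1, neg_div, neg_neg]

lemma map_form {l d : ℕ} (t : Mon (2 * l + 1) d → ℤ) (p : ℕ) : map (Int.castRingHom (ZMod p)) (form t) = form fun ν => (t ν : ZMod p) := by
  unfold Pool.Agent.Y722.HS.form
  simp [map_sum, map_prod]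

lemma primesIn_eq {l d : ℕ} (t : Mon (2 * l + 1) d → ℤ) (S : Set ℕ) (Y Y' : ℕ) : primesIn t S Y Y' = H36PN.GP (2 * l) d S Y Y' t := by
  classical
  ext p
  have h1 : p ∈ primesIn t S Y Y' ↔ p ∈ Ioc Y Y' ∧ p ∈ S ∧ Good t p := mem_filter
  have h2 : p ∈ H36PN.GP (2 * l) d S Y Y' t ↔ p ∈ H35GS.IV Y Y' ∧ p ∈ S ∧ H36PN.Sm p fun ν => (t ν : ZMod p) := mem_filter
  have h3 : p ∈ H35GS.IV Y Y' ↔ p ∈ Ioc Y Y' ∧ p.Prime := mem_filter
  have h4 : Good t p ↔ p.Prime ∧ H36PN.Sm p fun ν => (t ν : ZMod p) := by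
    unfold Good H36PN.Sm
    refine and_congr Iff.rfl (forall_congr' fun _ => ?_)
    have h5 : map (algebraMap (ZMod p) (AlgebraicClosure (ZMod p))) (map (Int.castRingHom (ZMod p)) (form t)) =
        map (algebraMap (ZMod p) (AlgebraicClosure (ZMod p))) (form fun ν => (t ν : ZMod p)) := congrArg _ (map_form t p)
    exact iff_of_eq (congrArg IsSmooth h5)
  rw [h1, h2, h3, h4]
  tauto

lemma prime_of {l d : ℕ} {t : Mon (2 * l + 1) d → ℤ} {S : Set ℕ} {Y Y' p : ℕ} (h : p ∈ primesIn t S Y Y') : p.Prime := by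
  classical
  have h1 : p ∈ primesIn t S Y Y' ↔ p ∈ Ioc Y Y' ∧ p ∈ S ∧ Good t p := mem_filter
  exact (h1.1 h).2.2.1

lemma le_b {l d : ℕ} (hl : 1 ≤ l) (hd : 3 ≤ d) : d ≤ b l d := by
  unfold b
  rw [Nat.le_div_iff_mul_le (by omega)]
  obtain ⟨e, rfl⟩ : ∃ e, d = e + 3 := ⟨d - 3, by omega⟩
  have h1 : e + 3 - 1 = e + 2 := by omega
  rw [h1]
  have h2 : (e + 2) ^ 4 ≤ (e + 2) ^ (2 * l + 2) := Nat.pow_le_pow_right (by omega) (by omega)
  have h3 : (e + 3) * (e + 3) ≤ (e + 2) ^ 4 := by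
    have : (e + 2) ^ 4 = (e + 3) * (e + 3) + (e ^ 4 + 8 * e ^ 3 + 23 * e ^ 2 + 26 * e + 7) := by ring
    omega
  omega

/-- **The joint moments.** Let `l ≥ 1` and `k_1, …, k_r ≥ 0`. There are `κ > 0` and `C` such that for all `d ≥ 3` with
`d + 1 ≥ 2 ∑ i k_i`, for almost all `t` and all Haar measures `μ` on `O(b)`, `b = ((d - 1) ^ (2 l + 2) + (d - 1)) / d`, the sum of
`∏ a_i(p) ^ k_i` over the `n` good primes of `S` in `(Y, Y']` differs from `n ∫ ∏ Φ_i(U) ^ k_i dμ` by at most
`C d ^ (l + 1 / 2) Y' ^ (1 / 2 + ε / 2)`. -/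
theorem result (l : ℕ) (hl : 1 ≤ l) (r : ℕ) (k : Fin r → ℕ) (ε : ℝ) (hε : 0 < ε) (hε1 : ε ≤ 1) :
    ∃ κ C : ℝ, 0 < κ ∧ ∀ d : ℕ, 3 ≤ d → 2 * ∑ i : Fin r, ((i : ℕ) + 1) * k i ≤ d + 1 →
      AlmostAll l d ε κ C fun t S Y Y' => ∀ μ, IsHaar (b l d) μ →
        |∑ p ∈ primesIn t S Y Y', ∏ i : Fin r, a t (i + 1) p ^ k i -
          (primesIn t S Y Y').card * ∫ U, ∏ i : Fin r, Φ (i + 1) U ^ k i ∂μ| ≤ C * (d : ℝ) ^ ((l : ℝ) + 1 / 2) * (Y' : ℝ) ^ (1 / 2 + ε / 2) := by
  classical
  obtain ⟨κ, hκ, C, hC, h⟩ := H36PN.emp_poly (2 * l) (by omega) (H36PN.monN_wt k) ε hε hε1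
  obtain ⟨C', hC'⟩ : ∃ C' : ℝ, C' = C * (1 + Real.sqrt (2 * l + 2) ^ (2 * l + 1)) := ⟨_, rfl⟩
  have hs0 : 0 ≤ Real.sqrt (2 * (l : ℝ) + 2) ^ (2 * l + 1) := by positivity
  refine ⟨κ, C', hκ, fun d hd3 hd S N L T hT hL X₀ hX₀ => ?_⟩
  obtain ⟨E, hE1, hE2, hE3⟩ := h d (by omega) hd S N L T hT (by
    intro i
    refine le_trans (mul_le_mul_of_nonneg_left ?_ hT.le) (hL i)
    have h1 : Fintype.card (Mon (2 * l + 1) d) + 1 ≤ (d + 2) ^ (2 * l + 1) := by
      have h2 := H36PN.card_Mon (2 * l + 1) d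
      have h3 : (d + 1) ^ (2 * l + 1) < (d + 2) ^ (2 * l + 1) := Nat.pow_lt_pow_left (by omega) (by omega)
      omega
    exact_mod_cast h1) X₀ hX₀
  refine ⟨E, hE1, ?_, fun t ht htE Y Y' hYY hY hYT μ hμ => ?_⟩
  · refine hE2.trans (mul_le_mul_of_nonneg_right (mul_le_mul_of_nonneg_right ?_ (Real.rpow_nonneg (Nat.cast_nonneg _) _))
      (prod_nonneg fun i _ => Nat.cast_nonneg _))
    rw [hC']
    nlinarith
  have h1 := hE3 t ht htE Y Y' hYY hY hYT
  have h2 := H36PN.haar_polyO (haar_of hμ) (H36PN.monN_wt k) (by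
    have := le_b hl hd3
    omega)
  rw [← primesIn_eq, sum_sub_distrib, sum_const, nsmul_eq_mul, ← h2] at h1
  have h3 : ∑ p ∈ primesIn t S Y Y', ∏ i : Fin r, a t (i + 1) p ^ k i =
      ∑ p ∈ primesIn t S Y Y', MvPolynomial.eval (fun j => H36PN.sv (2 * l) d j p fun i => (t i : ZMod p)) (H36PN.monN k) := by
    refine sum_congr rfl fun p hp => ?_
    rw [H36PN.monN_eval]
    refine prod_congr rfl fun i _ => ?_
    unfold a
    rw [newton_eq, H35GS.coef_congr ((i : ℕ) + 1) (fun m _ => ?_) _ le_rfl]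
    rw [τ_eq t p m (prime_of hp), Nat.add_sub_cancel]
  have h4 : ∫ U, ∏ i : Fin r, Φ (i + 1) U ^ k i ∂μ = ∫ U, MvPolynomial.eval (fun j => H36PN.OO.ps (j + 1) U) (H36PN.monN k) ∂μ := by
    congr 1
    funext U
    rw [H36PN.monN_eval]
    refine prod_congr rfl fun i _ => ?_
    unfold Φ
    rw [H36PN.OO.coeff_rev U, H35GS.coef_congr ((i : ℕ) + 1) (fun m _ => ?_) _ le_rfl]
    rw [Nat.add_sub_cancel]
    unfold H36PN.OO.ps
    rw [neg_neg]
  rw [h3, h4]
  refine h1.trans (mul_le_mul_of_nonneg_right ?_ (Real.rpow_nonneg (Nat.cast_nonneg _) _))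
  have h5 : Real.sqrt (H36PN.BD (2 * l) d) = Real.sqrt (2 * l + 2) ^ (2 * l + 1) * (d : ℝ) ^ ((l : ℝ) + 1 / 2) := by
    have h6 : (d : ℝ) ^ ((l : ℝ) + 1 / 2) = Real.sqrt d ^ (2 * l + 1) := by
      rw [Real.sqrt_eq_rpow, ← Real.rpow_natCast, ← Real.rpow_mul (Nat.cast_nonneg d)]
      congr 1
      push_cast
      ring
    unfold H36PN.BD
    rw [h6, ← mul_pow, ← Real.sqrt_mul (by positivity)]
    push_cast
    rw [Real.sqrt_eq_iff_mul_self_eq (by positivity) (by positivity), ← mul_pow, Real.mul_self_sqrt (by positivity)]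
  rw [h5, ← mul_assoc]
  refine mul_le_mul_of_nonneg_right ?_ (Real.rpow_nonneg (Nat.cast_nonneg _) _)
  rw [hC']
  refine mul_le_mul_of_nonneg_left ?_ (by linarith)
  linarith

end Pool.Agent.Results.MP_32ceeb_nt.MomentsOfHypersurfaces
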