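import Pool.Agent.H35J.GS.MulD

/-!
# The Sato-Tate law in even degrees for almost all products of hyperelliptic curves and Jacobians of large genus

Let `C_1, …, C_n` be hyperelliptic curves `y ^ 2 = X ^ D + t_(D-1) X ^ (D-1) + … + t_0` of genera `g_1, …, g_n` (`D = 2 g + 1` or
`2 g + 2`), and let `X = Y_1 × … × Y_n`, where each `Y_j` is either the curve `C_j` or its Jacobian. The cohomology of `X` is
determined by that of the curves (Künneth formula, exterior powers), and for almost all curves the Sato-Tate group of `X` in the even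
degree `2 l` is the image of `∏ USp(2 g_j)`. We compare the normalised traces of the powers of the Frobenius elements at
the good primes `p` on `H ^ (2 l)`, for all `l`, with the traces of the powers of a random element of `∏ USp(2 g_j)`: for almost
all tuples of curves, in all intervals (also for the primes in any given set), the distance of the two joint laws is at most `ε` in the
bounded Lipschitz metric (a metric of the weak convergence) if the genera are at least `g₀`. The number `n` of the factors is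
arbitrary.

Proof. The values of random monic polynomials of degrees `D_j` at closed points of total degree at most `D_j` are independent and
uniformly distributed. This gives the joint moments of the traces over all tuples modulo `p` up to `O (p ^ (-1 / 2))`, uniformly in
the genera. The Chinese remainder theorem gives the second moments of the sums over primes, and the inequality of Rademacher and
Menshov makes them uniform in the intervals. The moments for the Haar measures are determined up to `O (1 / g)` from the loop equations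
(integration by parts on `USp(2 g)`). The moment problem for the normal law is determinate, and the traces on `H ^ (2 l)`
are polynomials in the traces on `H ^ 1` of the curves.
-/

set_option autoImplicit false

namespace Pool.Agent.Results.MP_32ceeb_nt.ProductsOfCurves

open Finset Polynomial MeasureTheory

/-! ## The curves -/

/-- The polynomial `X ^ D + t_(D-1) X ^ (D-1) + … + t_0` over the ring `R`. -/
noncomputable def poly (R : Type) [CommRing R] {D : ℕ} (t : Fin D → ℤ) : R[X] :=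
  X ^ D + ∑ i : Fin D, C (t i : R) * X ^ (i : ℕ)

open Classical in
/-- The number of the points over the field with `p ^ k` elements (`p` a prime number) of the smooth projective curve with the affine
equation `y ^ 2 = X ^ D + t_(D-1) X ^ (D-1) + … + t_0`: the solutions of the equation, and one point at infinity if `D` is odd, two if `D`
is even. -/
noncomputable def points (p k : ℕ) {D : ℕ} (t : Fin D → ℤ) : ℕ :=
  if h : p.Prime then
    haveI : Fact p.Prime := ⟨h⟩
    Nat.card {P : GaloisField p k × GaloisField p k // P.2 ^ 2 = (poly (GaloisField p k) t).eval P.1} + if Odd D then 1 else 2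
  else 0

/-- The trace `s_k(p)` of the `k`-th power of the Frobenius on `H ^ 1` of the curve, divided by `p ^ (k / 2)`:
`(p ^ k + 1 - #C(F_(p ^ k))) / p ^ (k / 2)`. -/
noncomputable def s {D : ℕ} (t : Fin D → ℤ) (p k : ℕ) : ℝ := ((p : ℝ) ^ k + 1 - points p k t) / Real.sqrt p ^ k

/-- The coefficients of the polynomial `∏ (1 - α_j T)` in terms of the power sums `σ_k = ∑ α_j ^ k`, by Newton's identities
`(i + 1) a_(i+1) = - ∑_(j ≤ i) σ_(j+1) a_(i-j)`, `a_0 = 1`. -/
noncomputable def newton (σ : ℕ → ℝ) : ℕ → ℝ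
  | 0 => 1
  | i + 1 => -(∑ j : Fin (i + 1), σ (j + 1) * newton σ (i - j)) / (i + 1)

/-- A tuple of integer polynomials of the degrees `D 0, …, D (n - 1)` (all their coefficients except the leading ones, which are `1`). -/
abbrev Tuple {n : ℕ} (D : Fin n → ℕ) := (Σ j : Fin n, Fin (D j)) → ℤ

/-- The polynomial number `j` of the tuple; it defines the curve `C_j`. -/
def curve {n : ℕ} {D : Fin n → ℕ} (t : Tuple D) (j : Fin n) : Fin (D j) → ℤ := fun i => t ⟨j, i⟩

/-- `p` is an odd prime number and all the polynomials of the tuple are squarefree modulo `p`, so that all the curves `C_j`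
are smooth modulo `p`. -/
def Good {n : ℕ} {D : Fin n → ℕ} (t : Tuple D) (p : ℕ) : Prop := p.Prime ∧ p ≠ 2 ∧ ∀ j, Squarefree (poly (ZMod p) (curve t j))

open Classical in
/-- The common good primes `p` in the set `S` with `Y < p ≤ Y'`. -/
noncomputable def primesIn {n : ℕ} {D : Fin n → ℕ} (t : Tuple D) (S : Set ℕ) (Y Y' : ℕ) : Finset ℕ :=
  (Ioc Y Y').filter fun p => p ∈ S ∧ Good t p

/-- The tuples with `N i ≤ t i < N i + L i`. -/
noncomputable def box {n : ℕ} {D : Fin n → ℕ} (N : Tuple D) (L : (Σ j : Fin n, Fin (D j)) → ℕ) : Finset (Tuple D) :=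
  Fintype.piFinset fun i => Ico (N i) (N i + L i)

/-- For all sets `S` of primes, all boxes with sides at least `T (∑ D_j + 1)` and all `X₀ ≥ 1` the tuples `t` of the box have
the property `P t S Y Y'` for all `Y ≤ Y'` with `X₀ ≤ Y' ≤ T ^ κ`, with at most `K X₀ ^ (-ε / 2)` times the volume of the box
exceptions. -/
def AlmostAll {n : ℕ} (D : Fin n → ℕ) (ε κ K : ℝ) (P : Tuple D → Set ℕ → ℕ → ℕ → Prop) : Prop :=
  ∀ (S : Set ℕ) (N : Tuple D) (L : (Σ j : Fin n, Fin (D j)) → ℕ) (T : ℝ), 0 < T → (∀ i, T * (∑ j, (D j : ℝ) + 1) ≤ L i) →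
    ∀ X₀ : ℕ, 1 ≤ X₀ →
      ∃ E : Finset (Tuple D), E ⊆ box N L ∧ (E.card : ℝ) ≤ K * (X₀ : ℝ) ^ (-(ε / 2)) * ∏ i, (L i : ℝ) ∧
        ∀ t ∈ box N L, t ∉ E → ∀ Y Y' : ℕ, Y ≤ Y' → X₀ ≤ Y' → (Y' : ℝ) ≤ T ^ κ → P t S Y Y'

/-! ## The compact symplectic group -/

/-- The complex matrices of size `2 g`. -/
abbrev Mat (g : ℕ) := Matrix (Fin g ⊕ Fin g) (Fin g ⊕ Fin g) ℂ

/-- The Borel sets of the space of the matrices. -/
noncomputable local instance instBorel (g : ℕ) : MeasurableSpace (Mat g) := borel _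

/-- The compact symplectic group. -/
def USp (g : ℕ) : Set (Mat g) :=
  {U | U.conjTranspose * U = 1 ∧ U.transpose * Matrix.J (Fin g) ℂ * U = Matrix.J (Fin g) ℂ}

/-- The Haar probability measure on `USp(2 g)`, as a measure on the Borel sets of the space of the matrices. -/
structure IsHaar (g : ℕ) (μ : Measure (Mat g)) : Prop where
  prob : IsProbabilityMeasure μ
  supp : ∀ᵐ U ∂μ, U ∈ USp g
  inv : ∀ V ∈ USp g, μ.map (fun U => V * U) = μ

/-! ## The cohomology of the products -/

/-- Künneth's formula: the trace of an operator `F_1 × … × F_n` on `H ^ i (X_1 × … × X_n)`, if `F_j` has the trace `a j q` on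
`H ^ q (X_j)`. -/
noncomputable def kunneth {n : ℕ} (a : Fin n → ℕ → ℝ) (i : ℕ) : ℝ := ∑ q ∈ piAntidiag univ i, ∏ j, a j (q j)

/-- The traces on `H ^ 0`, `H ^ 1`, `H ^ 2` of a curve (normalised by the powers `p ^ 0`, `p ^ (1 / 2)`, `p ^ 1`), if the normalised
trace on `H ^ 1` is `σ`: they are `1`, `σ`, `1`. -/
def ofCurve (σ : ℝ) : ℕ → ℝ
  | 0 => 1
  | 1 => σ
  | 2 => 1
  | _ + 3 => 0

/-- The normalised traces on the cohomology `H ^ q = Λ ^ q H ^ 1` of an abelian variety, if the normalised trace of the `k`-th power of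
the operator on `H ^ 1` is `σ_k`. -/
noncomputable def ofJacobian (σ : ℕ → ℝ) (q : ℕ) : ℝ := (-1) ^ q * newton σ q

/-- The trace of the matrix `U` on the exterior power `Λ ^ q`: `(-1) ^ q` times the coefficient of `T ^ q` in `det (1 - T U)`, a real number
for `U` in `USp(2 g)`. -/
noncomputable def extTrace {g : ℕ} (U : Mat g) (q : ℕ) : ℝ := (-1) ^ q * (U.charpolyRev.coeff q).re

/-- The vector of the normalised traces of `Frob_p ^ m` on `H ^ (2 l) (Y_1 × … × Y_n)(l)`, `0 ≤ l ≤ d`, `1 ≤ m ≤ M` (the coordinate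
`(l, m - 1)`), where `Y_j` is the Jacobian of the curve `C_j` if `b j` is true, and the curve itself if not. -/
noncomputable def frob {n : ℕ} {D : Fin n → ℕ} (b : Fin n → Bool) (t : Tuple D) (p d M : ℕ) : Fin (d + 1) × Fin M → ℝ :=
  fun i => kunneth (fun j =>
    if b j then ofJacobian fun k => s (curve t j) p (((i.2 : ℕ) + 1) * k) else ofCurve (s (curve t j) p ((i.2 : ℕ) + 1))) (2 * i.1)

/-- The vector of the traces of `U ^ m` on the same representation of `∏ USp(2 g_j)`. -/
noncomputable def trace {n : ℕ} {g : Fin n → ℕ} (b : Fin n → Bool) (U : ∀ j, Mat (g j)) (d M : ℕ) : Fin (d + 1) × Fin M → ℝ :=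
  fun i => kunneth (fun j =>
    if b j then extTrace ((U j) ^ ((i.2 : ℕ) + 1)) else ofCurve ((U j) ^ ((i.2 : ℕ) + 1)).trace.re) (2 * i.1)

/-- The bounded Lipschitz distance of two laws (given by their integrals `A`, `B` of functions) is at most `ε`: the integrals of all
functions with values in `[-1, 1]` and the Lipschitz constant `1` (for the maximum norm) differ by at most `ε`. -/
def Near {ι : Type} [Fintype ι] (A B : ((ι → ℝ) → ℝ) → ℝ) (ε : ℝ) : Prop :=
  ∀ f : (ι → ℝ) → ℝ, LipschitzWith 1 f → (∀ x, |f x| ≤ 1) → |A f - B f| ≤ ε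

/-! ## Bridges to the library -/

lemma newton_eq (σ : ℕ → ℝ) (i : ℕ) : newton σ i = H35GS.coef σ i := by
  induction i using Nat.strong_induction_on with
  | _ i ih =>
    rcases i with _ | i
    · rw [H35GS.coef_zero, newton]
    · rw [H35GS.coef_succ, newton]
      congr 2
      exact sum_congr rfl fun j _ => by rw [ih (i - j) (by omega)]

lemma haar_of {g : ℕ} {μ : Measure (Mat g)} (h : IsHaar g μ) : H35GS.Haar μ where
  prob := h.prob
  supp := by
    filter_upwards [h.supp] with U hU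
    exact ⟨hU.1, hU.2⟩
  inv := fun V hV => h.inv V ⟨hV.un, hV.sy⟩

lemma eval_poly (p k : ℕ) [Fact p.Prime] {D : ℕ} (t : Fin D → ℤ) (x : GaloisField p k) :
    (poly (GaloisField p k) t).eval x = aeval x (H35GS.fpol fun i => (t i : ZMod p)) := by
  unfold poly H35GS.fpol
  simp [eval_finsetSum]

lemma s_eq {D : ℕ} (t : Fin D → ℤ) (p j : ℕ) (hp : p.Prime) (hp2 : p ≠ 2) : s t p (j + 1) = H35GS.sv D j p fun i => (t i : ZMod p) := by
  classical
  have : Fact p.Prime := ⟨hp⟩
  have hring : ringChar (GaloisField p (j + 1)) ≠ 2 := by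
    rw [ringChar.eq (GaloisField p (j + 1)) p]
    exact hp2
  have h1 : (Nat.card {P : GaloisField p (j + 1) × GaloisField p (j + 1) // P.2 ^ 2 = (poly (GaloisField p (j + 1)) t).eval P.1} : ℝ) =
      (p : ℝ) ^ (j + 1) + ∑ x : GaloisField p (j + 1), H35GS.qch (aeval x (H35GS.fpol fun i => (t i : ZMod p))) := by
    have h2 : Nat.card {P : GaloisField p (j + 1) × GaloisField p (j + 1) // P.2 ^ 2 = (poly (GaloisField p (j + 1)) t).eval P.1} =
        ∑ x : GaloisField p (j + 1), Nat.card {y : GaloisField p (j + 1) // y ^ 2 = (poly (GaloisField p (j + 1)) t).eval x} := by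
      rw [← Nat.card_sigma]
      exact Nat.card_congr ⟨fun P => ⟨P.1.1, ⟨P.1.2, P.2⟩⟩, fun P => ⟨(P.1, P.2.1), P.2.2⟩, fun _ => rfl, fun _ => rfl⟩
    rw [h2]
    push_cast
    have h3 : ∀ x : GaloisField p (j + 1), (Nat.card {y : GaloisField p (j + 1) // y ^ 2 = (poly (GaloisField p (j + 1)) t).eval x} : ℝ) =
        1 + H35GS.qch (aeval x (H35GS.fpol fun i => (t i : ZMod p))) := by
      intro x
      rw [H35GS.card_sqrt hring, eval_poly]
    rw [sum_congr rfl fun x _ => h3 x, sum_add_distrib, sum_const, card_univ, H35GS.card_GF (j + 1) (Nat.succ_ne_zero j), nsmul_eq_mul, mul_one]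
    push_cast
    rfl
  rw [H35GS.sv_eq]
  unfold s points H35GS.dl
  rw [dif_pos hp]
  push_cast
  rw [h1]
  congr 1
  split_ifs <;> ring

section

variable {n : ℕ} {D : Fin n → ℕ}

lemma primesIn_eq (t : Tuple D) (S : Set ℕ) (Y Y' : ℕ) : primesIn t S Y Y' = H35GS.Gn.GPM D S Y Y' t := by
  classical
  ext p
  have h1 : p ∈ primesIn t S Y Y' ↔ p ∈ Ioc Y Y' ∧ p ∈ S ∧ Good t p := mem_filter
  have h2 : p ∈ H35GS.Gn.GPM D S Y Y' t ↔ p ∈ H35GS.IV Y Y' ∧ p ∈ S ∧ p ≠ 2 ∧ ∀ j, Squarefree (H35GS.fpol (H35GS.Gn.blk (fun i => (t i : ZMod p)) j)) := mem_filter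
  have h3 : p ∈ H35GS.IV Y Y' ↔ p ∈ Ioc Y Y' ∧ p.Prime := mem_filter
  have h4 : Good t p ↔ p.Prime ∧ p ≠ 2 ∧ ∀ j, Squarefree (H35GS.fpol (H35GS.Gn.blk (fun i => (t i : ZMod p)) j)) := Iff.rfl
  rw [h1, h2, h3, h4]
  tauto

lemma good_of {t : Tuple D} {S : Set ℕ} {Y Y' p : ℕ} (h : p ∈ primesIn t S Y Y') : p.Prime ∧ p ≠ 2 := by
  classical
  have h1 : p ∈ primesIn t S Y Y' ↔ p ∈ Ioc Y Y' ∧ p ∈ S ∧ Good t p := mem_filter
  have h2 := (h1.1 h).2.2
  exact ⟨h2.1, h2.2.1⟩

lemma kunneth_eq (a : Fin n → ℕ → ℝ) (i : ℕ) : kunneth a i = H35GS.Gn.kun a i := rfl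

lemma ofCurve_eq (σ : ℝ) (q : ℕ) : ofCurve σ q = H35GS.Gn.crv σ q := by
  match q with
  | 0 => rfl
  | 1 => rfl
  | 2 => rfl
  | _ + 3 => rfl

lemma index_lt {d M l k m : ℕ} (hl : l < d + 1) (hm : m < M) (hk : k < 2 * l + 1) : (m + 1) * (k + 1) - 1 < (2 * d + 1) * M := by
  have h1 : (m + 1) * (k + 1) ≤ M * (2 * d + 1) := Nat.mul_le_mul (by omega) (by omega)
  have h2 : M * (2 * d + 1) = (2 * d + 1) * M := by ring
  have h3 : 0 < (m + 1) * (k + 1) := by positivity
  omega

lemma ext_at {r : ℕ} (x : Fin n × Fin r → ℝ) (j : Fin n) (m : ℕ) (hm : 1 ≤ m) (h : m - 1 < r) : H35GS.Gn.ext x j m = x (j, ⟨m - 1, h⟩) := by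
  obtain ⟨m, rfl⟩ : ∃ m', m = m' + 1 := ⟨m - 1, by omega⟩
  exact H35GS.Gn.ext_eq x j m h

lemma ext_s (t : Tuple D) {p : ℕ} (hp : p.Prime) (hp2 : p ≠ 2) {d M l k m : ℕ} (hl : l < d + 1) (hm : m < M) (hk : k < 2 * l + 1) (j : Fin n) :
    H35GS.Gn.ext (r := (2 * d + 1) * M) (fun i => H35GS.sv (D i.1) i.2 p (H35GS.Gn.blk (fun i => (t i : ZMod p)) i.1)) j ((m + 1) * (k + 1)) =
      s (curve t j) p ((m + 1) * (k + 1)) := by
  have h2 : 1 ≤ (m + 1) * (k + 1) := Nat.succ_le_of_lt (by positivity)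
  rw [ext_at _ _ _ h2 (index_lt hl hm hk)]
  obtain ⟨m', hm'⟩ : ∃ m', (m + 1) * (k + 1) = m' + 1 := ⟨(m + 1) * (k + 1) - 1, by omega⟩
  simp only [hm']
  rw [s_eq _ p _ hp hp2]
  rfl

lemma frob_eq (b : Fin n → Bool) (t : Tuple D) {p : ℕ} (hp : p.Prime) (hp2 : p ≠ 2) (d M : ℕ) :
    frob b t p d M = H35GS.Gn.FX b d M ((2 * d + 1) * M) fun i => H35GS.sv (D i.1) i.2 p (H35GS.Gn.blk (fun i => (t i : ZMod p)) i.1) := by
  funext i
  unfold frob H35GS.Gn.FX
  rw [kunneth_eq]
  refine H35GS.Gn.kun_congr fun j q hq => ?_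
  cases b j
  · simp only [Bool.false_eq_true, if_false]
    have h := ext_s t hp hp2 i.1.2 i.2.2 (Nat.succ_pos _) j
    rw [zero_add, mul_one] at h
    rw [ofCurve_eq, ← h]
  · simp only [if_true]
    unfold ofJacobian
    rw [newton_eq]
    congr 1
    exact H35GS.coef_congr (2 * (i.1 : ℕ)) (fun k hk => (ext_s t hp hp2 i.1.2 i.2.2 (by omega) j).symm) q hq

lemma US_pow {g : ℕ} {U : Mat g} (h : H35GS.US U) (m : ℕ) : H35GS.US (U ^ m) := by
  induction m with
  | zero => exact ⟨by simp, by simp⟩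
  | succ m ih =>
    rw [pow_succ]
    exact ih.mul h

lemma ext_V {g : Fin n → ℕ} (U : ∀ j, Mat (g j)) {d M l k m : ℕ} (hl : l < d + 1) (hm : m < M) (hk : k < 2 * l + 1) (j : Fin n) :
    H35GS.Gn.ext (H35GS.Gn.VV g ((2 * d + 1) * M) U) j ((m + 1) * (k + 1)) = ((U j) ^ ((m + 1) * (k + 1))).trace.re := by
  have h2 : 1 ≤ (m + 1) * (k + 1) := Nat.succ_le_of_lt (by positivity)
  rw [ext_at _ _ _ h2 (index_lt hl hm hk)]
  unfold H35GS.Gn.VV
  simp only
  rw [Nat.sub_add_cancel h2]

lemma trace_eq {g : Fin n → ℕ} (b : Fin n → Bool) (U : ∀ j, Mat (g j)) (hU : ∀ j, H35GS.US (U j)) (d M : ℕ) :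
    trace b U d M = H35GS.Gn.FX b d M ((2 * d + 1) * M) (H35GS.Gn.VV g ((2 * d + 1) * M) U) := by
  funext i
  unfold trace H35GS.Gn.FX
  rw [kunneth_eq]
  refine H35GS.Gn.kun_congr fun j q hq => ?_
  cases b j
  · simp only [Bool.false_eq_true, if_false]
    have h := ext_V U i.1.2 i.2.2 (Nat.succ_pos _) j
    rw [zero_add, mul_one] at h
    rw [ofCurve_eq, h]
  · simp only [if_true]
    unfold extTrace
    rw [H35GS.coeff_rev (US_pow (hU j) _)]
    congr 1
    refine H35GS.coef_congr (2 * (i.1 : ℕ)) (fun k hk => ?_) q hq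
    rw [ext_V U i.1.2 i.2.2 (by omega) j, pow_mul]

end

/-- **The Sato-Tate law in even degrees up to `ε`, for almost all products of curves and Jacobians of large genus.**
Let `n, M, d ≥ 0`, `b` a vector of `n` truth values and `0 < ε ≤ 1`. There are `g₀`, `κ > 0` and `K` such that for all genera
`g_1, …, g_n ≥ g₀` and degrees `D_j = 2 g_j + 1` or `2 g_j + 2` almost all tuples of curves have the property: if there are at least
`Y' ^ (1 / 2 + ε)` common good primes of `S` in `(Y, Y']`, then the bounded Lipschitz distance between the law at these primes of the vector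
of the traces of `Frob_p ^ m`, `1 ≤ m ≤ M`, on `H ^ (2 l) (Y_1 × … × Y_n)(l)`, `0 ≤ l ≤ d`, and the law of the corresponding vector for the
Haar measure of `∏ USp(2 g_j)` is at most `ε`; here `Y_j` is the Jacobian of the curve `C_j` if `b j` is true, and the curve itself
if not. -/
theorem result (n M d : ℕ) (b : Fin n → Bool) (ε : ℝ) (hε : 0 < ε) (hε1 : ε ≤ 1) :
    ∃ (g₀ : ℕ) (κ K : ℝ), 0 < κ ∧ ∀ g D : Fin n → ℕ, (∀ j, g₀ ≤ g j) → (∀ j, D j = 2 * g j + 1 ∨ D j = 2 * g j + 2) →
      AlmostAll D ε κ K fun t S Y Y' => (Y' : ℝ) ^ (1 / 2 + ε) ≤ (primesIn t S Y Y').card →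
        ∀ μ : ∀ j, Measure (Mat (g j)), (∀ j, IsHaar (g j) (μ j)) →
          Near (fun f => (∑ p ∈ primesIn t S Y Y', f (frob b t p d M)) / (primesIn t S Y Y').card)
            (fun f => ∫ U, f (trace b U d M) ∂(Measure.pi μ)) ε := by
  classical
  obtain ⟨g₀, κ, K, hκ, h⟩ := H35GS.Gn.main n ((2 * d + 1) * M) (H35GS.Gn.FX b d M ((2 * d + 1) * M)) (H35GS.Gn.FX_cont b d M ((2 * d + 1) * M)) ε hε hε1
  refine ⟨g₀, κ, K, hκ, fun g D hg hgD S N L T hT hL X₀ hX₀ => ?_⟩
  obtain ⟨E, hE1, hE2, hE3⟩ := h g D hg (fun j => by have := hgD j; omega) S N L T hT hL X₀ hX₀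
  refine ⟨E, hE1, hE2, fun t ht htE Y Y' hYY hY hYT hcard μ hμ f hf hb => ?_⟩
  rw [primesIn_eq] at hcard
  have h1 := hE3 t ht htE Y Y' hYY hY hYT hcard μ (fun j => haar_of (hμ j)) f hf hb
  rw [← primesIn_eq] at h1
  have h2 : ∑ p ∈ primesIn t S Y Y', f (frob b t p d M) =
      ∑ p ∈ primesIn t S Y Y', f (H35GS.Gn.FX b d M ((2 * d + 1) * M) fun i => H35GS.sv (D i.1) i.2 p (H35GS.Gn.blk (fun i => (t i : ZMod p)) i.1)) :=
    sum_congr rfl fun p hp => by rw [frob_eq b t (good_of hp).1 (good_of hp).2]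
  have hp : ∀ j, IsProbabilityMeasure (μ j) := fun j => (hμ j).prob
  have h4 : ∀ᵐ U ∂(Measure.pi μ), ∀ j, H35GS.US (U j) := by
    rw [Filter.eventually_all]
    intro j
    have h5 : ∀ᵐ V ∂(μ j), H35GS.US V := (haar_of (hμ j)).supp
    exact (Measure.quasiMeasurePreserving_eval μ j).ae h5
  have h3 : ∫ U, f (trace b U d M) ∂(Measure.pi μ) =
      ∫ U, f (H35GS.Gn.FX b d M ((2 * d + 1) * M) (H35GS.Gn.VV g ((2 * d + 1) * M) U)) ∂(Measure.pi μ) := by
    refine integral_congr_ae ?_
    filter_upwards [h4] with U hU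
    rw [trace_eq b U hU]
  simp only [h2, h3]
  exact h1

end Pool.Agent.Results.MP_32ceeb_nt.ProductsOfCurves
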